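import Mathlib

/-!
# Counting words with a wrong block frequency
-/

set_option autoImplicit false

open Finset

namespace Pool.Agent.J4H86.UA

theorem sum_range_mul' (A B : ℕ) (hB : 0 < B) (F G : ℕ → ℝ) :
    ∑ v ∈ range (A * B), F (v / B) * G (v % B) = (∑ u ∈ range A, F u) * ∑ t ∈ range B, G t := by
  induction A with
  | zero => simp
  | succ A ih =>
    rw [Nat.succ_mul, sum_range_add, ih, sum_range_succ, add_mul]
    congr 1
    rw [mul_sum]
    apply sum_congr rfl
    intro t ht
    have ht' := mem_range.mp ht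
    have h1 : (A * B + t) / B = A := by
      rw [mul_comm, Nat.mul_add_div hB, Nat.div_eq_of_lt ht', add_zero]
    have h2 : (A * B + t) % B = t := by
      rw [mul_comm, Nat.mul_add_mod, Nat.mod_eq_of_lt ht']
    rw [h1, h2]

/-- centred block indicator: `m` is the number of digits below the block. -/
noncomputable def g (b k W m v : ℕ) : ℝ := (if (v / b ^ m) % b ^ k = W then 1 else 0) - 1 / (b : ℝ) ^ k

theorem abs_g_le {b : ℕ} (hb : 2 ≤ b) (k W m v : ℕ) : |g b k W m v| ≤ 1 := by
  have h1 : (0:ℝ) < 1 / (b : ℝ) ^ k := by positivity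
  have h2 : 1 / (b : ℝ) ^ k ≤ 1 := by
    rw [div_le_one (by positivity)]
    apply one_le_pow₀
    exact_mod_cast (by omega : 1 ≤ b)
  unfold g
  rw [abs_le]
  split_ifs <;> constructor <;> linarith

theorem sum_G {b : ℕ} (hb : 2 ≤ b) (k m W : ℕ) (hW : W < b ^ k) :
    ∑ t ∈ range (b ^ (m + k)), ((if t / b ^ m = W then (1:ℝ) else 0) - 1 / (b : ℝ) ^ k) = 0 := by
  have hbm : 0 < b ^ m := by positivity
  rw [sum_sub_distrib, sum_const, card_range, nsmul_eq_mul]
  have h1 : ∑ t ∈ range (b ^ (m + k)), (if t / b ^ m = W then (1:ℝ) else 0) = (b : ℝ) ^ m := by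
    rw [sum_boole]
    have : (range (b ^ (m + k))).filter (fun t => t / b ^ m = W) = Ico (W * b ^ m) (W * b ^ m + b ^ m) := by
      ext t
      simp only [mem_filter, mem_range, mem_Ico]
      constructor
      · rintro ⟨h1, h2⟩
        have h3 := Nat.div_add_mod t (b ^ m)
        have h4 := Nat.mod_lt t hbm
        rw [h2, mul_comm] at h3
        generalize t % b ^ m = r at h3 h4
        constructor <;> omega
      · rintro ⟨h1, h2⟩
        have h3 : t / b ^ m = W := by
          rw [Nat.div_eq_iff hbm]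
          constructor
          · exact h1
          · omega
        refine ⟨?_, h3⟩
        calc t < W * b ^ m + b ^ m := h2
          _ = (W + 1) * b ^ m := by ring
          _ ≤ b ^ k * b ^ m := Nat.mul_le_mul_right _ hW
          _ = b ^ (m + k) := by ring
    rw [this, Nat.card_Ico]
    simp
  rw [h1]
  push_cast
  have hbk : (b : ℝ) ^ k ≠ 0 := by positivity
  rw [pow_add]
  field_simp
  ring

theorem sum_gg {b : ℕ} (hb : 2 ≤ b) (k W L m₁ m₂ : ℕ) (hW : W < b ^ k) (hm : m₂ + k ≤ m₁)
    (hL : m₂ + k ≤ L) : ∑ v ∈ range (b ^ L), g b k W m₁ v * g b k W m₂ v = 0 := by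
  have hbpos : 0 < b ^ (m₂ + k) := by positivity
  obtain ⟨d, rfl⟩ : ∃ d, m₁ = (m₂ + k) + d := ⟨m₁ - (m₂ + k), by omega⟩
  obtain ⟨e, rfl⟩ : ∃ e, L = e + (m₂ + k) := ⟨L - (m₂ + k), by omega⟩
  have key := sum_range_mul' (b ^ e) (b ^ (m₂ + k)) hbpos
    (fun u => (if (u / b ^ d) % b ^ k = W then (1:ℝ) else 0) - 1 / (b : ℝ) ^ k)
    (fun t => (if t / b ^ m₂ = W then (1:ℝ) else 0) - 1 / (b : ℝ) ^ k)
  rw [sum_G hb k m₂ W hW, mul_zero, ← pow_add] at key
  rw [← key]
  apply sum_congr rfl
  intro v _
  have h1 : v / b ^ (m₂ + k + d) = v / b ^ (m₂ + k) / b ^ d := by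
    rw [Nat.div_div_eq_div_mul, ← pow_add]
  have h2 : v % b ^ (m₂ + k) / b ^ m₂ = v / b ^ m₂ % b ^ k := by
    rw [pow_add, Nat.mod_mul_right_div_self]
  unfold g
  rw [h1, h2]

/-- Second moment bound. -/
theorem second_moment {b : ℕ} (hb : 2 ≤ b) (k W N : ℕ) (hW : W < b ^ k) :
    ∑ v ∈ range (b ^ (N + k)), (∑ i ∈ range N, g b k W (N - i) v) ^ 2 ≤
      2 * k * N * (b : ℝ) ^ (N + k) := by
  have h1 : ∀ v, (∑ i ∈ range N, g b k W (N - i) v) ^ 2 =
      ∑ i ∈ range N, ∑ j ∈ range N, g b k W (N - i) v * g b k W (N - j) v := by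
    intro v
    rw [sq, sum_mul_sum]
  simp_rw [h1]
  rw [sum_comm]
  have h2 : ∀ i ∈ range N, ∑ v ∈ range (b ^ (N + k)), ∑ j ∈ range N,
      g b k W (N - i) v * g b k W (N - j) v ≤ 2 * k * (b : ℝ) ^ (N + k) := by
    intro i hi
    rw [sum_comm]
    have h3 : ∀ j ∈ range N, ∑ v ∈ range (b ^ (N + k)), g b k W (N - i) v * g b k W (N - j) v ≤
        if j ∈ Ico (i + 1 - k) (i + k) then (b : ℝ) ^ (N + k) else 0 := by
      intro j hj
      have hi' := mem_range.mp hi
      have hj' := mem_range.mp hj
      split_ifs with hc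
      · calc ∑ v ∈ range (b ^ (N + k)), g b k W (N - i) v * g b k W (N - j) v
            ≤ ∑ v ∈ range (b ^ (N + k)), (1 : ℝ) := by
              apply sum_le_sum
              intro v _
              have a1 := abs_g_le hb k W (N - i) v
              have a2 := abs_g_le hb k W (N - j) v
              calc g b k W (N - i) v * g b k W (N - j) v ≤ |g b k W (N - i) v * g b k W (N - j) v| :=
                    le_abs_self _
                _ = |g b k W (N - i) v| * |g b k W (N - j) v| := abs_mul _ _
                _ ≤ 1 * 1 := mul_le_mul a1 a2 (abs_nonneg _) zero_le_one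
                _ = 1 := one_mul _
          _ = (b : ℝ) ^ (N + k) := by simp
      · apply le_of_eq
        rw [mem_Ico, not_and_or, not_le, not_lt] at hc
        rcases hc with hc | hc
        · -- j + k ≤ i
          have : ∀ v, g b k W (N - i) v * g b k W (N - j) v = g b k W (N - j) v * g b k W (N - i) v :=
            fun v => mul_comm _ _
          simp_rw [this]
          apply sum_gg hb k W _ _ _ hW
          · omega
          · omega
        · apply sum_gg hb k W _ _ _ hW
          · omega
          · omega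
    refine (sum_le_sum h3).trans ?_
    rw [← sum_filter, sum_const, nsmul_eq_mul]
    apply mul_le_mul_of_nonneg_right _ (by positivity)
    have h4 : ((range N).filter (fun j => j ∈ Ico (i + 1 - k) (i + k))).card ≤ 2 * k := by
      calc ((range N).filter (fun j => j ∈ Ico (i + 1 - k) (i + k))).card
          ≤ (Ico (i + 1 - k) (i + k)).card := by
            apply card_le_card
            intro j hj
            exact (mem_filter.mp hj).2
        _ ≤ 2 * k := by
            rw [Nat.card_Ico]; omega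
    exact_mod_cast h4
  calc ∑ i ∈ range N, ∑ v ∈ range (b ^ (N + k)), ∑ j ∈ range N, g b k W (N - i) v * g b k W (N - j) v
      ≤ ∑ i ∈ range N, 2 * k * (b : ℝ) ^ (N + k) := sum_le_sum h2
    _ = 2 * k * N * (b : ℝ) ^ (N + k) := by
        rw [sum_const, card_range, nsmul_eq_mul]; ring

/-- Chebyshev. -/
theorem card_bad {b : ℕ} (hb : 2 ≤ b) (k W N : ℕ) (hW : W < b ^ k) (δ : ℝ) (hδ : 0 < δ) (hN : 0 < N) :
    (((range (b ^ (N + k))).filter (fun v => δ * N ≤ |∑ i ∈ range N, g b k W (N - i) v|)).card : ℝ) ≤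
      2 * k / (δ ^ 2 * N) * (b : ℝ) ^ (N + k) := by
  have hN' : (0:ℝ) < N := by exact_mod_cast hN
  set Bd := (range (b ^ (N + k))).filter (fun v => δ * N ≤ |∑ i ∈ range N, g b k W (N - i) v|) with hBd
  have h1 : (Bd.card : ℝ) * (δ * N) ^ 2 ≤ 2 * k * N * (b : ℝ) ^ (N + k) := by
    refine le_trans ?_ (second_moment hb k W N hW)
    rw [← nsmul_eq_mul, ← sum_const]
    calc ∑ _v ∈ Bd, (δ * N) ^ 2 ≤ ∑ v ∈ Bd, (∑ i ∈ range N, g b k W (N - i) v) ^ 2 := by
          apply sum_le_sum
          intro v hv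
          rw [← sq_abs (∑ i ∈ range N, g b k W (N - i) v)]
          exact pow_le_pow_left₀ (by positivity) (mem_filter.mp hv).2 2
      _ ≤ _ := sum_le_sum_of_subset_of_nonneg (filter_subset _ _) (fun _ _ _ => sq_nonneg _)
  rw [← le_div_iff₀ (by positivity)] at h1
  refine h1.trans (le_of_eq ?_)
  field_simp

/-- A block of digits is a residue class. -/
theorem exists_W {b : ℕ} (hb : 2 ≤ b) : ∀ (k : ℕ) (w : Fin k → ℕ), (∀ j, w j < b) →
    ∃ W, W < b ^ k ∧ ∀ y : ℕ, (∀ j : Fin k, (y / b ^ (k - 1 - j.val)) % b = w j) ↔ y % b ^ k = W := by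
  intro k
  induction k with
  | zero =>
    intro w _
    refine ⟨0, by simp, fun y => ?_⟩
    constructor
    · intro _; simp [Nat.mod_one]
    · intro _ j; exact j.elim0
  | succ k ih =>
    intro w hw
    obtain ⟨W, hW, h⟩ := ih (fun j => w j.castSucc) (fun j => hw _)
    refine ⟨b * W + w (Fin.last k), ?_, fun y => ?_⟩
    · have := hw (Fin.last k)
      calc b * W + w (Fin.last k) < b * W + b := by omega
        _ = b * (W + 1) := by ring
        _ ≤ b * b ^ k := Nat.mul_le_mul_left _ hW
        _ = b ^ (k + 1) := by ring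
    · have hb0 : 0 < b := by omega
      have e1 : y % b ^ (k + 1) = b * ((y / b) % b ^ k) + y % b := by
        rw [pow_succ', Nat.mod_mul]
        ring
      rw [e1, Fin.forall_fin_succ']
      have e2 : (∀ i : Fin k, y / b ^ (k + 1 - 1 - (i.castSucc).val) % b = w i.castSucc) ↔
          (y / b) % b ^ k = W := by
        rw [← h (y / b)]
        apply forall_congr'
        intro i
        have hi := i.isLt
        have : k + 1 - 1 - (i.castSucc).val = (k - 1 - i.val) + 1 := by
          rw [Fin.val_castSucc]; omega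
        rw [this, pow_succ', Nat.div_div_eq_div_mul]
      have e3 : y / b ^ (k + 1 - 1 - (Fin.last k).val) % b = y % b := by
        rw [Fin.val_last]
        have : k + 1 - 1 - k = 0 := by omega
        rw [this, pow_zero, Nat.div_one]
      rw [e2, e3]
      have hlt1 := Nat.mod_lt y hb0
      have hlt2 := hw (Fin.last k)
      constructor
      · rintro ⟨h1, h2⟩
        rw [h1, h2]
      · intro h1
        have h3 : y % b = w (Fin.last k) := by
          have := congrArg (fun z => z % b) h1
          simp only [Nat.mul_add_mod] at this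
          rwa [Nat.mod_eq_of_lt hlt1, Nat.mod_eq_of_lt hlt2] at this
        refine ⟨?_, h3⟩
        rw [h3] at h1
        have h4 : b * ((y / b) % b ^ k) = b * W := by omega
        exact Nat.eq_of_mul_eq_mul_left hb0 h4

end Pool.Agent.J4H86.UA
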