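import Pool.Agent.J4H86.UA.Norm
import Pool.Agent.Y967.MU.BUMP

/-!
# Choice of the sparse set, uniqueness, mass distribution
-/

set_option autoImplicit false

open MeasureTheory Filter Topology Set
open scoped ENNReal

namespace Pool.Agent.J4H86.UA

/-! ### choice of the set of positions -/

/-- a strictly increasing sequence beyond given thresholds. -/
theorem exists_seq (t : ℕ → ℕ) : ∃ s : ℕ → ℕ, StrictMono s ∧ ∀ j, t j ≤ s j := by
  refine ⟨fun j => ∑ i ∈ Finset.range (j + 1), (t i + 1), ?_, ?_⟩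
  · apply strictMono_nat_of_lt_succ
    intro n
    rw [Finset.sum_range_succ _ (n + 1)]
    omega
  · intro j
    have : t j + 1 ≤ ∑ i ∈ Finset.range (j + 1), (t i + 1) :=
      Finset.single_le_sum (f := fun i => t i + 1) (fun i _ => Nat.zero_le _) (by simp)
    show t j ≤ ∑ i ∈ Finset.range (j + 1), (t i + 1)
    omega

theorem cnt_le {s : ℕ → ℕ} (hs : StrictMono s) (n j : ℕ) (h : cnt (range s) n = j + 1) :
    s j < n := by
  classical
  by_contra hcon
  push Not at hcon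
  have hsub : (Finset.range n).filter (fun i => i ∈ range s) ⊆ (Finset.range j).image s := by
    intro i hi
    rw [Finset.mem_filter, Finset.mem_range] at hi
    obtain ⟨h1, a, rfl⟩ := hi
    rw [Finset.mem_image]
    refine ⟨a, ?_, rfl⟩
    rw [Finset.mem_range]
    exact hs.lt_iff_lt.mp (lt_of_lt_of_le h1 hcon)
  have h1 := (Finset.card_le_card hsub).trans Finset.card_image_le
  rw [Finset.card_range] at h1
  have h2 : ((Finset.range n).filter (fun i => i ∈ range s)).card = j + 1 := by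
    rw [← h]
    unfold cnt
    congr
  omega

/-- The choice of the set of positions for a gauge. -/
theorem exists_S (φ : ℝ → ℝ) (hpos : ∀ r : ℝ, 0 < r → 0 < φ r)
    (hlim : Tendsto (fun r : ℝ => r / φ r) (𝓝[>] (0:ℝ)) (𝓝 0)) :
    ∃ s : ℕ → ℕ, StrictMono s ∧ (∀ n, 1 ≤ n → 4 ^ cnt (range s) n ≤ n) ∧
      ∃ ε : ℝ, 0 < ε ∧ ∀ n : ℕ, ∀ r : ℝ, 0 < r → r ≤ 1 / 2 ^ n → r ≤ ε →
        2 ^ cnt (range s) n * r ≤ φ r := by
  have h1 : ∀ j : ℕ, ∃ ρ : ℝ, 0 < ρ ∧ ∀ r, 0 < r → r ≤ ρ → 2 ^ j * r ≤ φ r := by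
    intro j
    have h2 := (tendsto_order.1 hlim).2 (1 / 2 ^ j) (by positivity)
    rw [eventually_nhdsWithin_iff, Metric.eventually_nhds_iff] at h2
    obtain ⟨ρ, hρ, h3⟩ := h2
    refine ⟨ρ / 2, half_pos hρ, fun r hr hr2 => ?_⟩
    have h4 := h3 (y := r) (by rw [Real.dist_eq, sub_zero, abs_of_pos hr]; linarith) hr
    rw [div_lt_div_iff₀ (hpos r hr) (by positivity)] at h4
    linarith
  choose ρ hρ h2 using h1
  have h3 : ∀ j : ℕ, ∃ t : ℕ, 1 / 2 ^ t ≤ ρ (j + 1) := by
    intro j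
    obtain ⟨t, ht⟩ := exists_pow_lt_of_lt_one (hρ (j + 1)) (by norm_num : (1/2:ℝ) < 1)
    refine ⟨t, ?_⟩
    rw [one_div, ← inv_pow, ← one_div]
    exact ht.le
  choose t ht using h3
  obtain ⟨s, hs, hst⟩ := exists_seq (fun j => max (t j) (4 ^ (j + 1)))
  refine ⟨s, hs, ?_, ρ 0, hρ 0, ?_⟩
  · intro n hn
    rcases Nat.eq_zero_or_pos (cnt (range s) n) with h0 | h0
    · rw [h0]; simpa using hn
    · obtain ⟨j, hj⟩ : ∃ j, cnt (range s) n = j + 1 := ⟨_, (Nat.succ_pred_eq_of_pos h0).symm⟩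
      rw [hj]
      have h4 := cnt_le hs n j hj
      have h5 := hst j
      have h6 : 4 ^ (j + 1) ≤ s j := le_trans (le_max_right _ _) h5
      omega
  · intro n r hr hrn hrε
    rcases Nat.eq_zero_or_pos (cnt (range s) n) with h0 | h0
    · rw [h0]
      exact h2 0 r hr hrε
    · obtain ⟨j, hj⟩ : ∃ j, cnt (range s) n = j + 1 := ⟨_, (Nat.succ_pred_eq_of_pos h0).symm⟩
      rw [hj]
      apply h2 (j + 1) r hr
      have h4 := cnt_le hs n j hj
      have h5 : t j ≤ s j := le_trans (le_max_left _ _) (hst j)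
      have h6 : t j ≤ n := by omega
      calc r ≤ 1 / 2 ^ n := hrn
        _ ≤ 1 / 2 ^ t j := by
            apply one_div_le_one_div_of_le (by positivity)
            exact pow_le_pow_right₀ (by norm_num) h6
        _ ≤ _ := ht j

/-! ### mass distribution -/

theorem mass {S : Set ℕ} (hS : ∀ n, 1 ≤ n → 4 ^ cnt S n ≤ n) (φ : ℝ → ℝ) {ε : ℝ} (hε : 0 < ε)
    (h : ∀ n : ℕ, ∀ r : ℝ, 0 < r → r ≤ 1 / 2 ^ n → r ≤ ε → 2 ^ cnt S n * r ≤ φ r) :
    (ENNReal.ofReal (1/6)) • mu S ≤ Measure.mkMetric (fun r : ℝ≥0∞ => ENNReal.ofReal (φ r.toReal)) := by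
  apply Measure.le_mkMetric _ _ (ENNReal.ofReal (min ε 1))
  · rw [ENNReal.ofReal_pos]
    exact lt_min hε one_pos
  · intro A hA
    rw [Measure.smul_apply, smul_eq_mul]
    rcases A.eq_empty_or_nonempty with rfl | hne
    · simp
    have hfin : Metric.ediam A ≠ ⊤ := ne_top_of_le_ne_top ENNReal.ofReal_ne_top hA
    have hbdd : Bornology.IsBounded A := Metric.isBounded_iff_ediam_ne_top.mpr hfin
    set r := (Metric.ediam A).toReal with hr
    have hr0 : 0 ≤ r := ENNReal.toReal_nonneg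
    have hrle : r ≤ min ε 1 := by
      rw [hr]
      have := ENNReal.toReal_mono ENNReal.ofReal_ne_top hA
      rwa [ENNReal.toReal_ofReal (le_min hε.le zero_le_one)] at this
    have hdiam : Metric.diam A = r := rfl
    have hsub : A ⊆ Icc (sInf A) (sInf A + r) := by
      intro x hx
      refine ⟨csInf_le hbdd.bddBelow hx, ?_⟩
      have h1 : ∀ y ∈ A, x - r ≤ y := by
        intro y hy
        have := Metric.dist_le_diam_of_mem hbdd hx hy
        rw [hdiam, Real.dist_eq] at this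
        have := le_abs_self (x - y)
        linarith
      have := le_csInf hne h1
      linarith
    rcases eq_or_lt_of_le hr0 with h0 | h0
    · -- a single point
      have : mu S A ≤ 0 := by
        rw [← mu_singleton S hS (sInf A)]
        apply measure_mono
        refine hsub.trans ?_
        rw [← h0, add_zero, Icc_self]
      rw [le_antisymm this bot_le, mul_zero]
      exact bot_le
    · obtain ⟨n, hn1, hn2⟩ := exists_nat_pow_near_of_lt_one h0 (hrle.trans (min_le_right _ _))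
        (by norm_num : (0:ℝ) < 1/2) (by norm_num : (1/2:ℝ) < 1)
      have e1 : (1/2:ℝ) ^ n = 1 / 2 ^ n := by rw [one_div, inv_pow, one_div]
      have e2 : (1/2:ℝ) ^ (n + 1) = 1 / 2 ^ n / 2 := by rw [pow_succ, e1]; ring
      rw [e1] at hn2
      rw [e2] at hn1
      have h2 : mu S A ≤ ENNReal.ofReal (6 * φ r) := by
        calc mu S A ≤ mu S (Icc (sInf A) (sInf A + 1 / 2 ^ n)) := by
              apply measure_mono
              refine hsub.trans (Icc_subset_Icc_right ?_)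
              linarith
          _ ≤ ENNReal.ofReal (3 * (2 ^ cnt S n / 2 ^ n)) := mu_Icc S n _
          _ ≤ ENNReal.ofReal (6 * φ r) := by
              apply ENNReal.ofReal_le_ofReal
              have h3 := h n r h0 hn2 (hrle.trans (min_le_left _ _))
              have h4 : (2:ℝ) ^ cnt S n / 2 ^ n = 2 ^ cnt S n * (1 / 2 ^ n) := by ring
              have h5 : 2 ^ cnt S n * (1 / 2 ^ n) ≤ 2 ^ cnt S n * (2 * r) := by
                apply mul_le_mul_of_nonneg_left _ (by positivity)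
                linarith
              rw [h4]
              linarith
      calc ENNReal.ofReal (1/6) * mu S A ≤ ENNReal.ofReal (1/6) * ENNReal.ofReal (6 * φ r) := by
            gcongr
        _ = ENNReal.ofReal (φ r) := by
            rw [← ENNReal.ofReal_mul (by norm_num)]
            congr 1
            ring

/-! ### uniqueness -/

theorem lam_add_int (γ : ℤ → ℂ) (x : ℝ) (m : ℤ) :
    Pool.Agent.Y249.SU.lam γ (x + m) = Pool.Agent.Y249.SU.lam γ x := by
  unfold Pool.Agent.Y249.SU.lam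
  apply tsum_congr
  intro j
  congr 1
  unfold Pool.Agent.Y249.SU.E
  have : (2 * (Real.pi : ℂ) * Complex.I * (j : ℂ) * ((x + m : ℝ) : ℂ)) =
      2 * (Real.pi : ℂ) * Complex.I * (j : ℂ) * (x : ℂ) + ((j * m : ℤ) : ℂ) * (2 * Real.pi * Complex.I) := by
    push_cast
    ring
  rw [this, Complex.exp_add, Complex.exp_int_mul_two_pi_mul_I, mul_one]

theorem uniq {s : ℕ → ℕ} (hs : StrictMono s) (c : ℤ → ℂ)
    (hc : ∀ x : ℝ, (∀ m : ℤ, x + (m:ℝ) ∉ KS (range s)) →
            Tendsto (fun N : ℕ => ∑ n ∈ Finset.Icc (-(N:ℤ)) (N:ℤ),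
              c n * Complex.exp (2 * (Real.pi:ℂ) * Complex.I * (n:ℂ) * (x:ℂ))) atTop (𝓝 0)) (n : ℤ) :
    c n = 0 := by
  obtain ⟨γ, hγ1, hγ0, hγ⟩ := Pool.Agent.Y967.MU.BUMP.t_BUMP (1/2) 1 (by norm_num) (by norm_num) le_rfl
  have hM : Tendsto (fun j : ℕ => ((2 ^ s j : ℕ) : ℤ)) atTop atTop := by
    have h1 : Tendsto (fun j : ℕ => 2 ^ s j) atTop atTop :=
      (tendsto_pow_atTop_atTop_of_one_lt (by norm_num : 1 < 2)).comp hs.tendsto_atTop
    exact tendsto_natCast_atTop_atTop.comp h1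
  have hK : ∀ x ∈ KS (range s), ∀ k, Pool.Agent.Y249.SU.lam γ ((((2 ^ s k : ℕ) : ℤ) : ℝ) * x) = 0 := by
    intro x hx k
    obtain ⟨m, h1, h2⟩ := hx.2 (s k) ⟨k, rfl⟩
    have e1 : ((((2 ^ s k : ℕ) : ℤ) : ℝ) * x) = (2 ^ s k * x - m) + (m : ℤ) := by
      push_cast
      ring
    rw [e1, lam_add_int]
    apply hγ
    · constructor <;> linarith
    · intro h
      linarith [h.1]
  have h2s : (0:ℝ) < 2 ^ s 0 := by positivity
  refine Pool.Agent.Y249.SU.uniqueness hM hγ1 hγ0 hK (a := 1 / 2 / 2 ^ s 0) (b := 1 / 2 ^ s 0) ?_ ?_ ?_ n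
  · apply div_lt_div_of_pos_right _ h2s
    norm_num
  · intro x hx m hxm
    have hx0 : 0 < x := lt_trans (by positivity) hx.1
    have h1s : (1:ℝ) ≤ 2 ^ s 0 := one_le_pow₀ (by norm_num)
    have hx1 : x < 1 := lt_of_lt_of_le hx.2 (by rw [div_le_one h2s]; exact h1s)
    have hm1 := hxm.1.1
    have hm2 := hxm.1.2
    have hm3 : (-1:ℝ) < m := by linarith
    have hm4 : (m:ℝ) < 1 := by linarith
    have hm5 : (-1:ℤ) < m := by exact_mod_cast hm3
    have hm6 : m < (1:ℤ) := by exact_mod_cast hm4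
    have hm : m = 0 := by omega
    subst hm
    obtain ⟨p, h1, h2⟩ := hxm.2 (s 0) ⟨0, rfl⟩
    push_cast at h1 h2
    rw [add_zero] at h1 h2
    have h3 := hx.1
    have h4 := hx.2
    rw [div_lt_iff₀ h2s] at h3
    rw [lt_div_iff₀ h2s] at h4
    have h5 : (p:ℝ) < 1 := by linarith
    have h6 : (0:ℝ) < p := by linarith
    have h7 : p < (1:ℤ) := by exact_mod_cast h5
    have h8 : (0:ℤ) < p := by exact_mod_cast h6
    omega
  · intro x hx
    exact hc x hx

end Pool.Agent.J4H86.UA
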