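import Mathlib

/-!
# The measure of numbers whose binary digits vanish on a sparse set of positions
-/

set_option autoImplicit false

open MeasureTheory Filter Topology Set

namespace Pool.Agent.J4H86.UA

open Classical in
/-- set the binary digits in positions of `S` to zero (the top `n` digits, position `0` being the
top one) -/
noncomputable def mk (S : Set ℕ) : ℕ → ℕ → ℕ
  | 0, _ => 0
  | (n + 1), v => 2 * mk S n (v / 2) + (if n ∈ S then 0 else v % 2)

open Classical in
/-- number of elements of `S` below `n`. -/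
noncomputable def cnt (S : Set ℕ) (n : ℕ) : ℕ := ((Finset.range n).filter (fun i => i ∈ S)).card

open Classical in
theorem cnt_succ (S : Set ℕ) (n : ℕ) : cnt S (n + 1) = cnt S n + (if n ∈ S then 1 else 0) := by
  unfold cnt
  rw [Finset.range_add_one, Finset.filter_insert]
  split_ifs with h
  · rw [Finset.card_insert_of_notMem (by simp)]
  · simp

theorem card_mk (S : Set ℕ) : ∀ n τ : ℕ,
    ((Finset.range (2 ^ n)).filter (fun v => mk S n v = τ)).card ≤ 2 ^ cnt S n := by
  classical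
  intro n
  induction n with
  | zero =>
    intro τ
    calc _ ≤ (Finset.range (2 ^ 0)).card := Finset.card_filter_le _ _
      _ = 1 := by simp
      _ ≤ _ := Nat.one_le_two_pow
  | succ n ih =>
    intro τ
    rw [cnt_succ]
    by_cases h : n ∈ S
    · rw [if_pos h, pow_succ]
      have hsub : (Finset.range (2 ^ (n + 1))).filter (fun v => mk S (n + 1) v = τ) ⊆
          (((Finset.range (2 ^ n)).filter (fun v => mk S n v = τ / 2)) ×ˢ Finset.range 2).image
            (fun p => 2 * p.1 + p.2) := by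
        intro v hv
        rw [Finset.mem_filter, Finset.mem_range] at hv
        rw [Finset.mem_image]
        refine ⟨(v / 2, v % 2), ?_, ?_⟩
        · rw [Finset.mem_product, Finset.mem_filter, Finset.mem_range, Finset.mem_range]
          have h2 : mk S (n + 1) v = 2 * mk S n (v / 2) := by
            simp [mk, h]
          refine ⟨⟨?_, ?_⟩, Nat.mod_lt _ (by norm_num)⟩
          · have := hv.1
            rw [pow_succ] at this
            omega
          · rw [h2] at hv
            show mk S n (v / 2) = τ / 2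
            omega
        · show 2 * (v / 2) + v % 2 = v
          omega
      refine (Finset.card_le_card hsub).trans (Finset.card_image_le.trans ?_)
      rw [Finset.card_product, Finset.card_range]
      exact Nat.mul_le_mul_right _ (ih _)
    · rw [if_neg h, add_zero]
      refine le_trans ?_ (ih (τ / 2))
      apply Finset.card_le_card_of_injOn (fun v => v / 2)
      · intro v hv
        rw [Finset.mem_coe, Finset.mem_filter, Finset.mem_range] at hv
        rw [Finset.mem_coe, Finset.mem_filter, Finset.mem_range]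
        have h2 : mk S (n + 1) v = 2 * mk S n (v / 2) + v % 2 := by
          simp [mk, h]
        refine ⟨?_, ?_⟩
        · have := hv.1
          rw [pow_succ] at this
          show v / 2 < 2 ^ n
          omega
        · rw [h2] at hv
          show mk S n (v / 2) = τ / 2
          omega
      · intro v hv u hu huv
        rw [Finset.mem_coe, Finset.mem_filter] at hv hu
        have h2 : mk S (n + 1) v = 2 * mk S n (v / 2) + v % 2 := by
          simp [mk, h]
        have h3 : mk S (n + 1) u = 2 * mk S n (u / 2) + u % 2 := by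
          simp [mk, h]
        rw [h2] at hv
        rw [h3] at hu
        have huv' : v / 2 = u / 2 := huv
        omega

/-- the masked integer part. -/
noncomputable def q (S : Set ℕ) (n : ℕ) (y : ℝ) : ℕ := mk S n ⌊2 ^ n * y⌋₊

open Classical in
theorem q_succ (S : Set ℕ) (n : ℕ) (y : ℝ) :
    q S (n + 1) y = 2 * q S n y + (if n ∈ S then 0 else ⌊2 ^ (n + 1) * y⌋₊ % 2) := by
  unfold q
  have : ⌊2 ^ (n + 1) * y⌋₊ / 2 = ⌊2 ^ n * y⌋₊ := by
    have h := Nat.floor_div_natCast (2 ^ (n + 1) * y) 2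
    rw [← h]
    congr 1
    push_cast
    ring
  simp only [mk]
  rw [this]

theorem q_succ_le (S : Set ℕ) (n : ℕ) (y : ℝ) : q S (n + 1) y ≤ 2 * q S n y + 1 := by
  rw [q_succ]
  split_ifs
  · omega
  · have := Nat.mod_lt ⌊2 ^ (n + 1) * y⌋₊ (by norm_num : 0 < 2)
    omega

theorem le_q_succ (S : Set ℕ) (n : ℕ) (y : ℝ) : 2 * q S n y ≤ q S (n + 1) y := by
  rw [q_succ]
  omega

theorem q_add_le (S : Set ℕ) (n m : ℕ) (y : ℝ) : q S (n + m) y + 1 ≤ 2 ^ m * (q S n y + 1) := by
  induction m with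
  | zero => simp
  | succ m ih =>
    have := q_succ_le S (n + m) y
    rw [← add_assoc, pow_succ]
    calc q S (n + m + 1) y + 1 ≤ 2 * (q S (n + m) y + 1) := by omega
      _ ≤ 2 * (2 ^ m * (q S n y + 1)) := Nat.mul_le_mul_left _ ih
      _ = _ := by ring

theorem le_q_add (S : Set ℕ) (n m : ℕ) (y : ℝ) : 2 ^ m * q S n y ≤ q S (n + m) y := by
  induction m with
  | zero => simp
  | succ m ih =>
    have := le_q_succ S (n + m) y
    rw [← add_assoc, pow_succ]
    calc 2 ^ m * 2 * q S n y = 2 * (2 ^ m * q S n y) := by ring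
      _ ≤ 2 * q S (n + m) y := Nat.mul_le_mul_left _ ih
      _ ≤ _ := this

theorem q_div_le (S : Set ℕ) (n m : ℕ) (y : ℝ) :
    (q S m y : ℝ) / 2 ^ m ≤ ((q S n y : ℝ) + 1) / 2 ^ n := by
  rw [div_le_div_iff₀ (by positivity) (by positivity)]
  rcases le_total n m with h | h
  · obtain ⟨d, rfl⟩ := Nat.exists_eq_add_of_le h
    have h1 : (q S (n + d) y : ℝ) + 1 ≤ 2 ^ d * (q S n y + 1) := by exact_mod_cast q_add_le S n d y
    rw [pow_add]
    have h2 : (0:ℝ) < 2 ^ n := by positivity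
    nlinarith
  · obtain ⟨d, rfl⟩ := Nat.exists_eq_add_of_le h
    have h1 : (2:ℝ) ^ d * q S m y ≤ q S (m + d) y := by exact_mod_cast le_q_add S m d y
    rw [pow_add]
    have h2 : (0:ℝ) < 2 ^ m := by positivity
    nlinarith

/-- The masked number. -/
noncomputable def T (S : Set ℕ) (y : ℝ) : ℝ := ⨆ n, (q S n y : ℝ) / 2 ^ n

theorem T_bdd (S : Set ℕ) (y : ℝ) : BddAbove (range fun n => (q S n y : ℝ) / 2 ^ n) :=
  ⟨((q S 0 y : ℝ) + 1) / 2 ^ 0, by rintro _ ⟨m, rfl⟩; exact q_div_le S 0 m y⟩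

theorem le_T (S : Set ℕ) (n : ℕ) (y : ℝ) : (q S n y : ℝ) / 2 ^ n ≤ T S y := le_ciSup (T_bdd S y) n

theorem T_le (S : Set ℕ) (n : ℕ) (y : ℝ) : T S y ≤ ((q S n y : ℝ) + 1) / 2 ^ n :=
  ciSup_le (fun m => q_div_le S n m y)

theorem q_zero (S : Set ℕ) (y : ℝ) : q S 0 y = 0 := rfl

theorem T_mem (S : Set ℕ) (y : ℝ) : T S y ∈ Icc (0:ℝ) 1 := by
  constructor
  · have := le_T S 0 y
    rw [q_zero] at this
    simpa using this
  · have := T_le S 0 y
    rw [q_zero] at this
    simpa using this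

theorem T_digit {S : Set ℕ} {n : ℕ} (hn : n ∈ S) (y : ℝ) :
    (q S n y : ℝ) ≤ 2 ^ n * T S y ∧ 2 ^ n * T S y ≤ (q S n y : ℝ) + 1 / 2 := by
  have h2 : (0:ℝ) < 2 ^ n := by positivity
  constructor
  · have := le_T S n y
    rw [div_le_iff₀ h2] at this
    linarith
  · have := T_le S (n + 1) y
    rw [q_succ, if_pos hn, add_zero, le_div_iff₀ (by positivity), pow_succ] at this
    push_cast at this
    linarith

theorem measurable_T (S : Set ℕ) : Measurable (T S) := by
  unfold T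
  apply Measurable.iSup
  intro n
  apply Measurable.div_const
  have h1 : Measurable (fun y : ℝ => ⌊2 ^ n * y⌋₊) :=
    Nat.measurable_floor.comp (measurable_const.mul measurable_id)
  have h2 : Measurable (fun v : ℕ => ((mk S n v : ℕ) : ℝ)) := measurable_from_nat
  exact h2.comp h1

/-- The measure. -/
noncomputable def mu (S : Set ℕ) : Measure ℝ := Measure.map (T S) (volume.restrict (Ico 0 1))

instance (S : Set ℕ) : IsProbabilityMeasure (mu S) := by
  have : IsProbabilityMeasure (volume.restrict (Ico (0:ℝ) 1)) := ⟨by simp⟩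
  exact Measure.isProbabilityMeasure_map (measurable_T S).aemeasurable

theorem vol_q (S : Set ℕ) (n τ : ℕ) :
    volume ({y : ℝ | q S n y = τ} ∩ Ico 0 1) ≤ ENNReal.ofReal (2 ^ cnt S n / 2 ^ n) := by
  classical
  have hsub : {y : ℝ | q S n y = τ} ∩ Ico 0 1 ⊆
      ⋃ v ∈ (Finset.range (2 ^ n)).filter (fun v => mk S n v = τ),
        Ico ((v : ℝ) / 2 ^ n) (((v : ℝ) + 1) / 2 ^ n) := by
    rintro y ⟨hy1, hy2⟩
    have h2 : (0:ℝ) < 2 ^ n := by positivity
    have h0 : 0 ≤ 2 ^ n * y := mul_nonneg h2.le hy2.1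
    rw [mem_iUnion₂]
    refine ⟨⌊2 ^ n * y⌋₊, ?_, ?_, ?_⟩
    · rw [Finset.mem_filter, Finset.mem_range]
      refine ⟨?_, hy1⟩
      rw [Nat.floor_lt h0]
      push_cast
      nlinarith [hy2.2]
    · rw [div_le_iff₀ h2]
      have := Nat.floor_le h0
      linarith
    · rw [lt_div_iff₀ h2]
      have := Nat.lt_floor_add_one (2 ^ n * y)
      linarith
  refine (measure_mono hsub).trans ((measure_biUnion_finset_le _ _).trans ?_)
  have h3 : ∀ v ∈ (Finset.range (2 ^ n)).filter (fun v => mk S n v = τ),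
      volume (Ico ((v : ℝ) / 2 ^ n) (((v : ℝ) + 1) / 2 ^ n)) = ENNReal.ofReal (1 / 2 ^ n) := by
    intro v _
    rw [Real.volume_Ico]
    congr 1
    ring
  rw [Finset.sum_congr rfl h3, Finset.sum_const, nsmul_eq_mul]
  calc (((Finset.range (2 ^ n)).filter (fun v => mk S n v = τ)).card : ENNReal) * ENNReal.ofReal (1 / 2 ^ n)
      ≤ ((2 ^ cnt S n : ℕ) : ENNReal) * ENNReal.ofReal (1 / 2 ^ n) := by
        gcongr
        exact_mod_cast card_mk S n τ
    _ = ENNReal.ofReal ((2 ^ cnt S n : ℕ) : ℝ) * ENNReal.ofReal (1 / 2 ^ n) := by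
        rw [ENNReal.ofReal_natCast]
    _ = ENNReal.ofReal (2 ^ cnt S n / 2 ^ n) := by
        rw [← ENNReal.ofReal_mul (by positivity)]
        congr 1
        push_cast
        ring

theorem mu_Icc (S : Set ℕ) (n : ℕ) (a : ℝ) :
    mu S (Icc a (a + 1 / 2 ^ n)) ≤ ENNReal.ofReal (3 * (2 ^ cnt S n / 2 ^ n)) := by
  have h2 : (0:ℝ) < 2 ^ n := by positivity
  rw [mu, Measure.map_apply (measurable_T S) measurableSet_Icc,
    Measure.restrict_apply (measurable_T S measurableSet_Icc)]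
  set τ := ⌈2 ^ n * a - 1⌉.toNat with hτ
  have hsub : T S ⁻¹' Icc a (a + 1 / 2 ^ n) ∩ Ico 0 1 ⊆
      ⋃ j ∈ Finset.range 3, ({y : ℝ | q S n y = τ + j} ∩ Ico 0 1) := by
    rintro y ⟨hy1, hy2⟩
    have h3 := le_T S n y
    have h4 := T_le S n y
    rw [div_le_iff₀ h2] at h3
    rw [le_div_iff₀ h2] at h4
    have h5 : 2 ^ n * a - 1 ≤ (q S n y : ℝ) := by
      have := hy1.1
      nlinarith
    have h6 : (q S n y : ℝ) ≤ 2 ^ n * a + 1 := by
      have h7 := hy1.2
      have h8 : T S y * 2 ^ n ≤ (a + 1 / 2 ^ n) * 2 ^ n := mul_le_mul_of_nonneg_right h7 h2.le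
      have h9 : (a + 1 / 2 ^ n) * 2 ^ n = 2 ^ n * a + 1 := by field_simp
      linarith
    have h7 : ⌈2 ^ n * a - 1⌉ ≤ (q S n y : ℤ) := by
      rw [Int.ceil_le]
      exact_mod_cast h5
    have h8 : (q S n y : ℤ) ≤ ⌈2 ^ n * a - 1⌉ + 2 := by
      have h9 := Int.le_ceil (2 ^ n * a - 1)
      have : ((q S n y : ℤ) : ℝ) ≤ ((⌈2 ^ n * a - 1⌉ + 2 : ℤ) : ℝ) := by
        push_cast
        linarith
      exact_mod_cast this
    have h9 : τ ≤ q S n y := by
      rw [hτ]; omega
    have h10 : q S n y ≤ τ + 2 := by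
      rw [hτ]; omega
    rw [mem_iUnion₂]
    refine ⟨q S n y - τ, ?_, ?_, hy2⟩
    · rw [Finset.mem_range]; omega
    · show q S n y = τ + (q S n y - τ)
      omega
  refine (measure_mono hsub).trans ((measure_biUnion_finset_le _ _).trans ?_)
  refine (Finset.sum_le_sum (fun j _ => vol_q S n (τ + j))).trans ?_
  rw [Finset.sum_const, Finset.card_range, nsmul_eq_mul, ENNReal.ofReal_mul (by norm_num)]
  simp

/-- the closed set. -/
def KS (S : Set ℕ) : Set ℝ :=
  {x | x ∈ Icc (0:ℝ) 1 ∧ ∀ n ∈ S, ∃ m : ℤ, (m:ℝ) ≤ 2 ^ n * x ∧ 2 ^ n * x ≤ (m:ℝ) + 1 / 2}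

theorem T_mem_KS (S : Set ℕ) (y : ℝ) : T S y ∈ KS S := by
  refine ⟨T_mem S y, fun n hn => ?_⟩
  obtain ⟨h1, h2⟩ := T_digit hn y
  exact ⟨(q S n y : ℤ), by exact_mod_cast h1, by exact_mod_cast h2⟩

theorem closed_aux : IsClosed {y : ℝ | ∃ m : ℤ, (m:ℝ) ≤ y ∧ y ≤ (m:ℝ) + 1 / 2} := by
  have : {y : ℝ | ∃ m : ℤ, (m:ℝ) ≤ y ∧ y ≤ (m:ℝ) + 1 / 2} = (⋃ m : ℤ, Ioo ((m:ℝ) + 1 / 2) (m + 1))ᶜ := by
    ext y
    simp only [mem_setOf_eq, mem_compl_iff, mem_iUnion, mem_Ioo, not_exists, not_and, not_lt]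
    constructor
    · rintro ⟨m, h1, h2⟩ k hk
      have h3 : (k:ℝ) < m := by linarith
      have h4 : k + 1 ≤ m := by exact_mod_cast h3
      have h5 : ((k + 1 : ℤ) : ℝ) ≤ m := by exact_mod_cast h4
      push_cast at h5
      linarith
    · intro h
      refine ⟨⌊y⌋, Int.floor_le y, ?_⟩
      by_contra hcon
      push Not at hcon
      have := h ⌊y⌋ hcon
      have := Int.lt_floor_add_one y
      linarith
  rw [this]
  exact (isOpen_iUnion fun m => isOpen_Ioo).isClosed_compl

theorem isClosed_KS (S : Set ℕ) : IsClosed (KS S) := by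
  have : KS S = Icc 0 1 ∩ ⋂ n ∈ S, (fun x : ℝ => 2 ^ n * x) ⁻¹' {y : ℝ | ∃ m : ℤ, (m:ℝ) ≤ y ∧ y ≤ (m:ℝ) + 1 / 2} := by
    ext x
    simp [KS]
  rw [this]
  apply isClosed_Icc.inter
  apply isClosed_biInter
  intro n _
  exact closed_aux.preimage (by fun_prop)

theorem mu_KS_compl (S : Set ℕ) : mu S (KS S)ᶜ = 0 := by
  rw [mu, Measure.map_apply (measurable_T S) (isClosed_KS S).measurableSet.compl]
  have : T S ⁻¹' (KS S)ᶜ = ∅ := by
    ext y
    simp [T_mem_KS S y]
  rw [this]
  simp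

end Pool.Agent.J4H86.UA
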