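import Pool.Agent.J4H86.UA.Count
import Pool.Agent.J4H86.UA.Mu

/-!
# Almost every point is absolutely normal
-/

set_option autoImplicit false

open MeasureTheory Filter Topology Set

namespace Pool.Agent.J4H86.UA

/-- the bad set. -/
def Bad (b k W N : ℕ) (δ : ℝ) : Set ℝ :=
  {x | x ∈ Ico (0:ℝ) 1 ∧ δ * N ≤ |∑ i ∈ Finset.range N, g b k W (N - i) ⌊(b:ℝ) ^ (N + k) * x⌋₊|}

theorem mu_Bad (S : Set ℕ) {b : ℕ} (hb : 2 ≤ b) (k W N : ℕ) (hW : W < b ^ k) (δ : ℝ) (hδ : 0 < δ)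
    (hN : 0 < N) :
    mu S (Bad b k W N δ) ≤
      ENNReal.ofReal (12 * k * 2 ^ cnt S (Nat.log 2 (b ^ (N + k))) / (δ ^ 2 * N)) := by
  set L := N + k with hL
  set n := Nat.log 2 (b ^ L) with hn
  set c := cnt S n with hc
  have hbL : (0:ℝ) < (b:ℝ) ^ L := by positivity
  have h2n : (0:ℝ) < 2 ^ n := by positivity
  have hbLne : b ^ L ≠ 0 := by positivity
  have hlog1 : 2 ^ n ≤ b ^ L := Nat.pow_log_le_self 2 hbLne
  have hlog2 : b ^ L < 2 ^ (n + 1) := Nat.lt_pow_succ_log_self (by norm_num) _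
  have hlog1' : (2:ℝ) ^ n ≤ (b:ℝ) ^ L := by exact_mod_cast hlog1
  have hlog2' : (b:ℝ) ^ L ≤ 2 ^ (n + 1) := by exact_mod_cast hlog2.le
  set Bd := (Finset.range (b ^ L)).filter
    (fun v => δ * N ≤ |∑ i ∈ Finset.range N, g b k W (N - i) v|) with hBd
  have hsub : Bad b k W N δ ⊆ ⋃ v ∈ Bd, Icc ((v:ℝ) / (b:ℝ) ^ L) ((v:ℝ) / (b:ℝ) ^ L + 1 / 2 ^ n) := by
    rintro x ⟨hx, hx2⟩
    have h0 : 0 ≤ (b:ℝ) ^ L * x := mul_nonneg hbL.le hx.1
    rw [mem_iUnion₂]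
    refine ⟨⌊(b:ℝ) ^ L * x⌋₊, ?_, ?_, ?_⟩
    · rw [hBd, Finset.mem_filter, Finset.mem_range]
      refine ⟨?_, hx2⟩
      rw [Nat.floor_lt h0]
      push_cast
      nlinarith [hx.2]
    · rw [div_le_iff₀ hbL]
      have := Nat.floor_le h0
      linarith
    · have h3 := Nat.lt_floor_add_one ((b:ℝ) ^ L * x)
      have h4 : x ≤ (⌊(b:ℝ) ^ L * x⌋₊ : ℝ) / (b:ℝ) ^ L + 1 / (b:ℝ) ^ L := by
        rw [← add_div, le_div_iff₀ hbL]
        linarith
      have h5 : 1 / (b:ℝ) ^ L ≤ 1 / 2 ^ n := one_div_le_one_div_of_le h2n hlog1'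
      linarith
  refine (measure_mono hsub).trans ((measure_biUnion_finset_le _ _).trans ?_)
  refine (Finset.sum_le_sum (fun v _ => mu_Icc S n _)).trans ?_
  rw [Finset.sum_const, nsmul_eq_mul]
  have hcard := card_bad hb k W N hW δ hδ hN
  have hN' : (0:ℝ) < N := by exact_mod_cast hN
  calc (Bd.card : ENNReal) * ENNReal.ofReal (3 * (2 ^ cnt S n / 2 ^ n))
      = ENNReal.ofReal (Bd.card * (3 * (2 ^ cnt S n / 2 ^ n))) := by
        rw [ENNReal.ofReal_mul (p := (Bd.card : ℝ)) (by positivity), ENNReal.ofReal_natCast]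
    _ ≤ _ := by
        apply ENNReal.ofReal_le_ofReal
        calc (Bd.card : ℝ) * (3 * (2 ^ cnt S n / 2 ^ n))
            ≤ (2 * k / (δ ^ 2 * N) * (b : ℝ) ^ L) * (3 * (2 ^ c / 2 ^ n)) := by
              apply mul_le_mul_of_nonneg_right hcard (by positivity)
          _ ≤ (2 * k / (δ ^ 2 * N) * 2 ^ (n + 1)) * (3 * (2 ^ c / 2 ^ n)) := by
              gcongr
          _ = 12 * k * 2 ^ c / (δ ^ 2 * N) := by
              rw [pow_succ]
              field_simp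
              ring

theorem ae_eventually (S : Set ℕ) (hS : ∀ n, 1 ≤ n → 4 ^ cnt S n ≤ n) {b : ℕ} (hb : 2 ≤ b)
    (k W : ℕ) (hW : W < b ^ k) (δ : ℝ) (hδ : 0 < δ) :
    ∀ᵐ x ∂(mu S), ∀ᶠ M : ℕ in atTop, x ∉ Bad b k W ((M + 1) ^ 4) δ := by
  apply ae_eventually_notMem
  have hle : ∀ M : ℕ, mu S (Bad b k W ((M + 1) ^ 4) δ) ≤
      ENNReal.ofReal ((12 * k * (b * (k + 1)) / δ ^ 2) * (1 / ((M:ℝ) + 1) ^ 2)) := by
    intro M
    refine (mu_Bad S hb k W ((M + 1) ^ 4) hW δ hδ (by positivity)).trans ?_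
    apply ENNReal.ofReal_le_ofReal
    set L := (M + 1) ^ 4 + k with hL
    set n := Nat.log 2 (b ^ L) with hn
    have hL1 : 1 ≤ L := by
      have : 1 ≤ (M + 1) ^ 4 := Nat.one_le_pow _ _ (Nat.succ_pos _)
      omega
    have hn1 : 1 ≤ n := by
      rw [hn]
      apply Nat.le_log_of_pow_le (by norm_num)
      calc 2 ^ 1 ≤ b ^ 1 := by simpa using hb
        _ ≤ b ^ L := Nat.pow_le_pow_right (by omega) hL1
    have hnle : n ≤ b * L := by
      rw [hn]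
      have h1 : b ^ L ≤ 2 ^ (b * L) := by
        rw [pow_mul]
        exact Nat.pow_le_pow_left (Nat.lt_two_pow_self).le L
      calc Nat.log 2 (b ^ L) ≤ Nat.log 2 (2 ^ (b * L)) := Nat.log_mono_right h1
        _ = b * L := Nat.log_pow (by norm_num) _
    have hLle : L ≤ (k + 1) * (M + 1) ^ 4 := by
      have : 1 ≤ (M + 1) ^ 4 := Nat.one_le_pow _ _ (Nat.succ_pos _)
      rw [hL]
      nlinarith
    have h4 : 4 ^ cnt S n ≤ (b * (k + 1) * (M + 1) ^ 2) ^ 2 := by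
      calc 4 ^ cnt S n ≤ n := hS n hn1
        _ ≤ b * L := hnle
        _ ≤ b * ((k + 1) * (M + 1) ^ 4) := Nat.mul_le_mul_left _ hLle
        _ = (b * (k + 1)) * (M + 1) ^ 4 := by ring
        _ ≤ (b * (k + 1)) ^ 2 * (M + 1) ^ 4 := by
            apply Nat.mul_le_mul_right
            have : 1 ≤ b * (k + 1) := Nat.one_le_iff_ne_zero.mpr (by positivity)
            nlinarith
        _ = _ := by ring
    have h5 : 2 ^ cnt S n ≤ b * (k + 1) * (M + 1) ^ 2 := by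
      have : (2 ^ cnt S n) ^ 2 ≤ (b * (k + 1) * (M + 1) ^ 2) ^ 2 := by
        rw [← pow_mul, mul_comm, pow_mul]
        exact h4
      exact (Nat.pow_le_pow_iff_left (by norm_num)).mp this
    have h6 : (2:ℝ) ^ cnt S n ≤ b * (k + 1) * ((M:ℝ) + 1) ^ 2 := by exact_mod_cast h5
    have hMpos : (0:ℝ) < (M:ℝ) + 1 := by positivity
    push_cast
    calc 12 * k * 2 ^ cnt S n / (δ ^ 2 * ((M:ℝ) + 1) ^ 4)
        ≤ 12 * k * (b * (k + 1) * ((M:ℝ) + 1) ^ 2) / (δ ^ 2 * ((M:ℝ) + 1) ^ 4) := by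
          gcongr
      _ = (12 * k * (b * (k + 1)) / δ ^ 2) * (1 / ((M:ℝ) + 1) ^ 2) := by
          field_simp
  have hsum : Summable (fun M : ℕ => (12 * k * (b * (k + 1)) / δ ^ 2) * (1 / ((M:ℝ) + 1) ^ 2)) := by
    apply Summable.mul_left
    have h1 : Summable (fun n : ℕ => 1 / (n:ℝ) ^ 2) := Real.summable_one_div_nat_pow.mpr (by norm_num)
    have := (summable_nat_add_iff 1).mpr h1
    simpa using this
  exact ne_top_of_le_ne_top hsum.tsum_ofReal_ne_top (ENNReal.tsum_le_tsum hle)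

/-- number of occurrences. -/
noncomputable def occ (b k : ℕ) (w : Fin k → ℤ) (x : ℝ) (N : ℕ) : ℕ :=
  ((Finset.range N).filter (fun i : ℕ =>
    ∀ j : Fin k, ⌊x * (b:ℝ) ^ (i + j.val + 1)⌋ % (b:ℤ) = w j)).card

theorem floor_div_pow {b : ℕ} (x : ℝ) (m d : ℕ) (hb : 2 ≤ b) :
    ⌊x * (b:ℝ) ^ m⌋₊ = ⌊x * (b:ℝ) ^ (m + d)⌋₊ / b ^ d := by
  rw [← Nat.floor_div_natCast]
  congr 1
  push_cast
  rw [pow_add]
  have : (b:ℝ) ^ d ≠ 0 := by positivity
  field_simp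

theorem cond_iff {b : ℕ} (hb : 2 ≤ b) (k : ℕ) (w : Fin k → ℤ) (hw : ∀ j, 0 ≤ w j ∧ w j < (b:ℤ))
    (W : ℕ) (hW : ∀ y : ℕ, (∀ j : Fin k, (y / b ^ (k - 1 - j.val)) % b = (w j).toNat) ↔ y % b ^ k = W)
    (x : ℝ) (hx : 0 ≤ x) (i : ℕ) :
    (∀ j : Fin k, ⌊x * (b:ℝ) ^ (i + j.val + 1)⌋ % (b:ℤ) = w j) ↔
      ⌊x * (b:ℝ) ^ (i + k)⌋₊ % b ^ k = W := by
  rw [← hW]
  apply forall_congr'
  intro j
  have hj := j.isLt
  have h1 : ⌊x * (b:ℝ) ^ (i + j.val + 1)⌋₊ = ⌊x * (b:ℝ) ^ (i + k)⌋₊ / b ^ (k - 1 - j.val) := by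
    have := floor_div_pow x (i + j.val + 1) (k - 1 - j.val) hb
    have e : i + j.val + 1 + (k - 1 - j.val) = i + k := by omega
    rw [this, e]
  rw [← h1]
  have h2 : ⌊x * (b:ℝ) ^ (i + j.val + 1)⌋ = ((⌊x * (b:ℝ) ^ (i + j.val + 1)⌋₊ : ℕ) : ℤ) := by
    rw [Int.natCast_floor_eq_floor (by positivity)]
  rw [h2]
  have h3 := (hw j).1
  constructor
  · intro h
    have : (((⌊x * (b:ℝ) ^ (i + j.val + 1)⌋₊ % b : ℕ)) : ℤ) = w j := by
      rw [← h]; push_cast; rfl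
    omega
  · intro h
    have : (((⌊x * (b:ℝ) ^ (i + j.val + 1)⌋₊ % b : ℕ)) : ℤ) = w j := by
      rw [h]; exact Int.toNat_of_nonneg h3
    rw [← this]; push_cast; rfl

theorem occ_eq {b : ℕ} (hb : 2 ≤ b) (k : ℕ) (w : Fin k → ℤ) (hw : ∀ j, 0 ≤ w j ∧ w j < (b:ℤ))
    (W : ℕ) (hW : ∀ y : ℕ, (∀ j : Fin k, (y / b ^ (k - 1 - j.val)) % b = (w j).toNat) ↔ y % b ^ k = W)
    (x : ℝ) (hx : 0 ≤ x) (N : ℕ) :
    (occ b k w x N : ℝ) - N * (1 / (b:ℝ) ^ k) =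
      ∑ i ∈ Finset.range N, g b k W (N - i) ⌊(b:ℝ) ^ (N + k) * x⌋₊ := by
  unfold g
  rw [Finset.sum_sub_distrib, Finset.sum_const, Finset.card_range, nsmul_eq_mul, Finset.sum_boole]
  congr 2
  unfold occ
  congr 1
  apply Finset.filter_congr
  intro i hi
  have hi' := Finset.mem_range.mp hi
  rw [cond_iff hb k w hw W hW x hx i]
  have := floor_div_pow x (i + k) (N - i) hb
  rw [this]
  have e : i + k + (N - i) = N + k := by omega
  rw [e, mul_comm x]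

theorem occ_mono (b k : ℕ) (w : Fin k → ℤ) (x : ℝ) : Monotone (fun N => (occ b k w x N : ℝ)) := by
  intro N M h
  have : occ b k w x N ≤ occ b k w x M := by
    apply Finset.card_le_card
    apply Finset.filter_subset_filter
    exact Finset.range_subset_range.mpr h
  show (occ b k w x N : ℝ) ≤ (occ b k w x M : ℝ)
  exact_mod_cast this

theorem tendsto_occ {b : ℕ} (hb : 2 ≤ b) (k : ℕ) (w : Fin k → ℤ) (hw : ∀ j, 0 ≤ w j ∧ w j < (b:ℤ))
    (W : ℕ) (hW : ∀ y : ℕ, (∀ j : Fin k, (y / b ^ (k - 1 - j.val)) % b = (w j).toNat) ↔ y % b ^ k = W)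
    (x : ℝ) (hx : x ∈ Ico (0:ℝ) 1)
    (h : ∀ r : ℕ, ∀ᶠ M : ℕ in atTop, x ∉ Bad b k W ((M + 1) ^ 4) (1 / ((r:ℝ) + 1))) :
    Tendsto (fun N : ℕ => (occ b k w x N : ℝ) / N) atTop (𝓝 (1 / (b:ℝ) ^ k)) := by
  apply tendsto_div_of_monotone_of_exists_subseq_tendsto_div (fun N => (occ b k w x N : ℝ)) _
    (occ_mono b k w x)
  intro a ha
  refine ⟨fun M => (M + 1) ^ 4, ?_, ?_, ?_⟩
  · have h1 : Tendsto (fun M : ℕ => ((((M + 1 : ℕ) : ℝ) + 1) / ((M:ℝ) + 1)) ^ 4) atTop (𝓝 1) := by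
      have h2 : Tendsto (fun M : ℕ => 1 + 1 / ((M:ℝ) + 1)) atTop (𝓝 (1 + 0)) :=
        tendsto_const_nhds.add tendsto_one_div_add_atTop_nhds_zero_nat
      have h3 := h2.pow 4
      rw [add_zero, one_pow] at h3
      refine h3.congr (fun M => ?_)
      congr 1
      push_cast
      have : (M:ℝ) + 1 ≠ 0 := by positivity
      field_simp
    filter_upwards [(tendsto_order.1 h1).2 a ha] with M hM
    rw [div_pow, div_lt_iff₀ (by positivity)] at hM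
    push_cast at hM ⊢
    exact hM.le
  · apply tendsto_atTop_mono (f := fun M : ℕ => M) _ tendsto_id
    intro M
    calc M ≤ (M + 1) ^ 1 := by rw [pow_one]; omega
      _ ≤ (M + 1) ^ 4 := Nat.pow_le_pow_right (by omega) (by norm_num)
  · rw [Metric.tendsto_atTop]
    intro ε hε
    obtain ⟨r, hr⟩ := exists_nat_one_div_lt hε
    obtain ⟨M0, hM0⟩ := eventually_atTop.mp (h r)
    refine ⟨M0, fun M hM => ?_⟩
    have h1 := hM0 M hM
    have h2 : |∑ i ∈ Finset.range ((M + 1) ^ 4), g b k W ((M + 1) ^ 4 - i)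
        ⌊(b:ℝ) ^ ((M + 1) ^ 4 + k) * x⌋₊| < 1 / ((r:ℝ) + 1) * (((M + 1) ^ 4 : ℕ) : ℝ) := by
      by_contra hcon
      push Not at hcon
      exact h1 ⟨hx, hcon⟩
    rw [← occ_eq hb k w hw W hW x hx.1 ((M + 1) ^ 4)] at h2
    have hpos : (0:ℝ) < (((M + 1) ^ 4 : ℕ) : ℝ) := by positivity
    rw [Real.dist_eq]
    have h3 : (occ b k w x ((M + 1) ^ 4) : ℝ) / (((M + 1) ^ 4 : ℕ) : ℝ) - 1 / (b:ℝ) ^ k =
        ((occ b k w x ((M + 1) ^ 4) : ℝ) - (((M + 1) ^ 4 : ℕ) : ℝ) * (1 / (b:ℝ) ^ k)) /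
          (((M + 1) ^ 4 : ℕ) : ℝ) := by
      field_simp
    rw [h3, abs_div, abs_of_pos hpos, div_lt_iff₀ hpos]
    refine h2.trans ?_
    exact mul_lt_mul_of_pos_right hr hpos

theorem mu_singleton (S : Set ℕ) (hS : ∀ n, 1 ≤ n → 4 ^ cnt S n ≤ n) (x : ℝ) : mu S {x} = 0 := by
  have hle : ∀ n : ℕ, mu S {x} ≤ ENNReal.ofReal (3 * ((1/2) ^ n * ((n:ℝ) + 1))) := by
    intro n
    have h1 : {x} ⊆ Icc x (x + 1 / 2 ^ n) := by
      rintro _ rfl
      exact ⟨le_rfl, by have : (0:ℝ) < 1 / 2 ^ n := by positivity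
                        linarith⟩
    refine (measure_mono h1).trans ((mu_Icc S n x).trans ?_)
    apply ENNReal.ofReal_le_ofReal
    have h2 : (2:ℝ) ^ cnt S n ≤ (n:ℝ) + 1 := by
      rcases Nat.eq_zero_or_pos n with rfl | hn
      · simp [cnt]
      · have h3 := hS n hn
        have h4 : 2 ^ cnt S n ≤ 4 ^ cnt S n := Nat.pow_le_pow_left (by norm_num) _
        have : 2 ^ cnt S n ≤ n + 1 := by omega
        exact_mod_cast this
    have h3 : (2:ℝ) ^ cnt S n / 2 ^ n = (1/2) ^ n * 2 ^ cnt S n := by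
      rw [one_div, inv_pow]; field_simp
    rw [h3]
    gcongr
  have hlim : Tendsto (fun n : ℕ => ENNReal.ofReal (3 * ((1/2) ^ n * ((n:ℝ) + 1)))) atTop (𝓝 0) := by
    have h1 : Tendsto (fun n : ℕ => (n:ℝ) * (1/2:ℝ) ^ n) atTop (𝓝 0) :=
      tendsto_self_mul_const_pow_of_lt_one (by norm_num) (by norm_num)
    have h2 : Tendsto (fun n : ℕ => (1/2:ℝ) ^ n) atTop (𝓝 0) :=
      tendsto_pow_atTop_nhds_zero_of_lt_one (by norm_num) (by norm_num)
    have h3 : Tendsto (fun n : ℕ => 3 * ((n:ℝ) * (1/2:ℝ) ^ n + (1/2:ℝ) ^ n)) atTop (𝓝 (3 * (0 + 0))) :=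
      (h1.add h2).const_mul 3
    rw [add_zero, mul_zero] at h3
    have h4 := ENNReal.tendsto_ofReal h3
    rw [ENNReal.ofReal_zero] at h4
    refine h4.congr (fun n => ?_)
    congr 1
    ring
  exact le_antisymm (ge_of_tendsto hlim (Eventually.of_forall hle)) bot_le

/-- The set of absolutely normal numbers. -/
def AN : Set ℝ := {x : ℝ | ∀ b : ℕ, 2 ≤ b → ∀ k : ℕ, ∀ w : Fin k → ℤ,
            (∀ j : Fin k, 0 ≤ w j ∧ w j < (b:ℤ)) →
            Tendsto (fun N : ℕ =>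
              ((((Finset.range N).filter (fun i : ℕ =>
                ∀ j : Fin k, ⌊x * (b:ℝ) ^ (i + j.val + 1)⌋ % (b:ℤ) = w j)).card : ℝ) / (N:ℝ)))
              atTop (𝓝 (1 / (b:ℝ) ^ k))}

theorem ae_mem_AN (S : Set ℕ) (hS : ∀ n, 1 ≤ n → 4 ^ cnt S n ≤ n) :
    ∀ᵐ x ∂(mu S), x ∈ AN := by
  have h1 : ∀ᵐ x ∂(mu S), ∀ b : ℕ, ∀ k : ℕ, ∀ W : ℕ, ∀ r : ℕ, 2 ≤ b → W < b ^ k →
      ∀ᶠ M : ℕ in atTop, x ∉ Bad b k W ((M + 1) ^ 4) (1 / ((r:ℝ) + 1)) := by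
    rw [ae_all_iff]; intro b
    rw [ae_all_iff]; intro k
    rw [ae_all_iff]; intro W
    rw [ae_all_iff]; intro r
    by_cases hb : 2 ≤ b
    · by_cases hW : W < b ^ k
      · filter_upwards [ae_eventually S hS hb k W hW (1 / ((r:ℝ) + 1)) (by positivity)] with x hx _ _
        exact hx
      · exact Eventually.of_forall (fun x _ h => absurd h hW)
    · exact Eventually.of_forall (fun x h => absurd h hb)
  have h2 : ∀ᵐ x ∂(mu S), x ∈ Ico (0:ℝ) 1 := by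
    have h3 : mu S {(1:ℝ)} = 0 := mu_singleton S hS 1
    have h4 := mu_KS_compl S
    have h5 : mu S (Ico (0:ℝ) 1)ᶜ = 0 := by
      apply measure_mono_null (t := (KS S)ᶜ ∪ {1}) _ (measure_union_null h4 h3)
      intro x hx
      by_cases hxK : x ∈ KS S
      · right
        have hx1 := hxK.1
        by_contra hne
        apply hx
        exact ⟨hx1.1, lt_of_le_of_ne hx1.2 hne⟩
      · left; exact hxK
    exact h5
  filter_upwards [h1, h2] with x hx1 hx2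
  intro b hb k w hw
  obtain ⟨W, hWlt, hW⟩ := exists_W hb k (fun j => (w j).toNat) (fun j => by
    have := hw j
    show (w j).toNat < b
    omega)
  exact tendsto_occ hb k w hw W hW x hx2 (fun r => hx1 b k W r hb hWlt)

end Pool.Agent.J4H86.UA
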